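import Mathlib

set_option autoImplicit false

namespace Pool.Agent.Ha237

open Finset ArithmeticFunction
open scoped ArithmeticFunction.Moebius

lemma sum_le_of_inj {ι κ : Type*} [DecidableEq κ] {s : Finset ι} {t : Finset κ} {f : ι → ℝ}
    {g : κ → ℝ} (e : ι → κ) (he : Set.InjOn e s) (ht : s.image e ⊆ t) (h : ∀ i ∈ s, f i ≤ g (e i))
    (hg : ∀ x ∈ t, x ∉ s.image e → 0 ≤ g x) : ∑ i ∈ s, f i ≤ ∑ x ∈ t, g x :=
  (sum_le_sum h).trans ((sum_image he).symm.le.trans (sum_le_sum_of_subset_of_nonneg ht hg))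

lemma mu_inner (e f : ℕ) (hf : 0 < f) :
    ∑ d ∈ f.divisors, (if e ∣ d then (μ (f / d) : ℝ) else 0) = if e = f then 1 else 0 := by
  by_cases hef : e ∣ f
  · obtain ⟨g, rfl⟩ := hef
    have he : 0 < e := Nat.pos_of_mul_pos_right hf
    have hg : 0 < g := Nat.pos_of_mul_pos_left hf
    have h1 : ∑ d ∈ (e * g).divisors, (if e ∣ d then (μ (e * g / d) : ℝ) else 0) =
        ∑ c ∈ g.divisors, (μ (g / c) : ℝ) := by
      rw [← sum_filter]
      symm
      refine sum_bij (fun c _ => e * c) ?_ ?_ ?_ ?_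
      · intro c hc
        exact mem_filter.mpr ⟨Nat.mem_divisors.mpr
          ⟨Nat.mul_dvd_mul_left e (Nat.dvd_of_mem_divisors hc), hf.ne'⟩, Dvd.intro _ rfl⟩
      · intro c _ c' _ h
        exact Nat.eq_of_mul_eq_mul_left he h
      · intro d hd
        obtain ⟨h1, c, rfl⟩ := mem_filter.mp hd
        exact ⟨c, Nat.mem_divisors.mpr
          ⟨Nat.dvd_of_mul_dvd_mul_left he (Nat.dvd_of_mem_divisors h1), hg.ne'⟩, rfl⟩
      · intro c _
        rw [Nat.mul_div_mul_left _ _ he]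
    rw [h1, Nat.sum_div_divisors g (fun c => (μ c : ℝ))]
    have h2 := congrArg (fun F : ArithmeticFunction ℝ => F g) (coe_moebius_mul_coe_zeta (R := ℝ))
    simp only [coe_mul_zeta_apply, intCoe_apply, one_apply] at h2
    rw [h2]
    have : e = e * g ↔ g = 1 := by
      constructor
      · intro h; nlinarith
      · rintro rfl; simp
    simp only [this]
  · rw [if_neg (by rintro rfl; exact hef dvd_rfl)]
    refine sum_eq_zero fun d hd => if_neg fun h => hef (h.trans (Nat.dvd_of_mem_divisors hd))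

/-- the sifting range -/
def DD (b D : ℕ) : Finset ℕ := (Icc 1 D).filter fun d => Nat.Coprime d b

noncomputable def GG (b D : ℕ) : ℝ := ∑ f ∈ DD b D, (μ f : ℝ) ^ 2 / f

lemma mem_DD {b D d : ℕ} : d ∈ DD b D ↔ (1 ≤ d ∧ d ≤ D) ∧ Nat.Coprime d b := by
  simp [DD]

lemma DD_dvd {b D d f : ℕ} (hf : f ∈ DD b D) (h : d ∣ f) : d ∈ DD b D := by
  rw [mem_DD] at hf ⊢
  exact ⟨⟨Nat.pos_of_dvd_of_pos h hf.1.1, (Nat.le_of_dvd hf.1.1 h).trans hf.1.2⟩,
    hf.2.coprime_dvd_left h⟩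

lemma sum_DD_dvd {b D f : ℕ} (hf : f ∈ DD b D) (F : ℕ → ℝ) :
    ∑ d ∈ DD b D, (if d ∣ f then F d else 0) = ∑ d ∈ f.divisors, F d := by
  rw [← sum_filter]
  refine sum_congr ?_ fun _ _ => rfl
  ext d
  have := (mem_DD.mp hf).1.1
  simp only [mem_filter, Nat.mem_divisors]
  exact ⟨fun h => ⟨h.2, by omega⟩, fun h => ⟨DD_dvd hf h.1, h.1⟩⟩

lemma one_le_GG {b D : ℕ} (hD : 1 ≤ D) : 1 ≤ GG b D := by
  have h1 : 1 ∈ DD b D := mem_DD.mpr ⟨⟨le_rfl, hD⟩, by simp⟩
  have := single_le_sum (f := fun f : ℕ => (μ f : ℝ) ^ 2 / f) (fun i _ => by positivity) h1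
  simpa [GG] using this

lemma GG_ge (b D : ℕ) (hb : 0 < b) : Real.log ((D / b + 1 : ℕ) : ℝ) ≤ 2 * b * GG b D := by
  have h1 : ∑ n ∈ DD b D, (1 : ℝ) / n ≤ 2 * GG b D := by
    choose a k hak using fun n => Nat.sq_mul_squarefree n
    have s1 : ∑ n ∈ DD b D, (1 : ℝ) / n ≤
        ∑ x ∈ DD b D ×ˢ Icc 1 D, (μ x.1 : ℝ) ^ 2 / x.1 * (1 / (x.2 : ℝ) ^ 2) := by
      refine sum_le_of_inj (fun n => (a n, k n)) ?_ ?_ ?_ ?_
      · intro n _ n' _ h
        simp only [Prod.mk.injEq] at h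
        rw [← (hak n).1, ← (hak n').1, h.1, h.2]
      · intro x hx
        obtain ⟨n, hn, rfl⟩ := mem_image.mp hx
        refine mem_product.mpr ⟨DD_dvd hn (Dvd.intro_left _ (hak n).1), ?_⟩
        have := DD_dvd hn (d := k n) ⟨k n * a n, by rw [← mul_assoc, ← sq, (hak n).1]⟩
        exact mem_Icc.mpr (mem_DD.mp this).1
      · intro n _
        have h2 : (μ (a n) : ℝ) ^ 2 = 1 := by exact_mod_cast moebius_sq_eq_one_of_squarefree (hak n).2
        have h3 : (n : ℝ) = (k n : ℝ) ^ 2 * a n := by exact_mod_cast (hak n).1.symm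
        simp only [h2]
        rw [div_mul_div_comm, one_mul, mul_comm, ← h3]
      · intro x _ _
        positivity
    rw [sum_product] at s1
    simp only at s1
    rw [← sum_mul_sum] at s1
    have s2 : ∀ D : ℕ, 1 ≤ D → ∑ k ∈ Icc 1 D, (1 : ℝ) / ((k : ℕ) : ℝ) ^ 2 ≤ 2 - 1 / (D : ℝ) := by
      intro D hD
      induction D, hD using Nat.le_induction with
      | base => norm_num
      | succ D hD ih =>
        rw [sum_Icc_succ_top (by omega)]
        have hD' : (0 : ℝ) < D := by exact_mod_cast hD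
        have : 1 / ((D + 1 : ℕ) : ℝ) ^ 2 ≤ 1 / D - 1 / ((D + 1 : ℕ) : ℝ) := by
          push_cast
          rw [div_sub_div _ _ hD'.ne' (by positivity), div_le_div_iff₀ (by positivity) (by positivity)]
          nlinarith
        linarith
    have s3 : ∑ k ∈ Icc 1 D, (1 : ℝ) / ((k : ℕ) : ℝ) ^ 2 ≤ 2 := by
      rcases Nat.eq_zero_or_pos D with rfl | hD
      · simp
      · have := s2 D hD
        have : (0 : ℝ) ≤ 1 / D := by positivity
        linarith
    have s4 : 0 ≤ GG b D := sum_nonneg fun _ _ => by positivity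
    calc _ ≤ GG b D * ∑ k ∈ Icc 1 D, (1 : ℝ) / ((k : ℕ) : ℝ) ^ 2 := s1
      _ ≤ GG b D * 2 := mul_le_mul_of_nonneg_left s3 s4
      _ = _ := mul_comm _ _
  have hb' : (0 : ℝ) < b := by exact_mod_cast hb
  have h2 : ∑ j ∈ range (D / b), (1 : ℝ) / (b * (j + 1)) ≤ ∑ n ∈ DD b D, (1 : ℝ) / n := by
    refine sum_le_of_inj (fun j => b * j + 1) ?_ ?_ ?_ ?_
    · intro i _ j _ h
      exact Nat.eq_of_mul_eq_mul_left hb (by simpa using h)
    · intro x hx
      obtain ⟨j, hj, rfl⟩ := mem_image.mp hx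
      have a1 : b * (j + 1) ≤ b * (D / b) := Nat.mul_le_mul_left b (mem_range.mp hj)
      have a2 := Nat.mul_div_le D b
      refine mem_DD.mpr ⟨⟨by omega, by nlinarith⟩, by simp⟩
    · intro j _
      have : (1 : ℝ) ≤ b := by exact_mod_cast hb
      push_cast
      exact one_div_le_one_div_of_le (by positivity) (by nlinarith)
    · intro x _ _
      positivity
  have h3 := log_add_one_le_harmonic (D / b)
  have h4 : ((harmonic (D / b) : ℚ) : ℝ) = b * ∑ j ∈ range (D / b), (1 : ℝ) / (b * (j + 1)) := by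
    rw [harmonic, mul_sum]
    push_cast
    refine sum_congr rfl fun j _ => ?_
    field_simp
  rw [h4] at h3
  nlinarith

/-- Selberg's weights -/
lemma weights (b D : ℕ) (hD : 1 ≤ D) : ∃ l : ℕ → ℝ, l 1 = 1 ∧ (∀ d ∈ DD b D, |l d| ≤ (D : ℝ) ^ 2) ∧
    ∑ d ∈ DD b D, ∑ d' ∈ DD b D, l d * l d' / (Nat.lcm d d') ≤ 1 / GG b D := by
  have hG := one_le_GG (b := b) hD
  have hG0 : 0 < GG b D := by linarith
  set y : ℕ → ℝ := fun f => (μ f : ℝ) / f / GG b D with hy
  have hmu : ∀ n, |(μ n : ℝ)| ≤ 1 := fun n => by exact_mod_cast abs_moebius_le_one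
  refine ⟨fun d => d * ∑ f ∈ DD b D, if d ∣ f then μ (f / d) * y f else 0, ?_, ?_, ?_⟩
  · simp only [Nat.cast_one, one_mul, one_dvd, if_true, Nat.div_one, hy]
    rw [← div_self hG0.ne']
    conv_rhs => rw [GG, sum_div]
    exact sum_congr rfl fun f _ => by rw [GG]; ring
  · intro d hd
    obtain ⟨⟨-, h2⟩, -⟩ := mem_DD.mp hd
    have h3 : (d : ℝ) ≤ D := by exact_mod_cast h2
    have h4 : |∑ f ∈ DD b D, if d ∣ f then μ (f / d) * y f else 0| ≤ D := by
      refine (abs_sum_le_sum_abs _ _).trans ((sum_le_card_nsmul _ _ 1 ?_).trans ?_)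
      · intro f hf
        have hf1 : (1 : ℝ) ≤ f := by exact_mod_cast (mem_DD.mp hf).1.1
        split_ifs
        · rw [abs_mul]
          refine mul_le_one₀ (hmu _) (abs_nonneg _) ?_
          simp only [hy]
          rw [abs_div, abs_div, abs_of_pos hG0, abs_of_pos (by linarith : (0 : ℝ) < f)]
          exact div_le_one_of_le₀ ((div_le_one_of_le₀ ((hmu f).trans hf1) (by linarith)).trans hG)
            hG0.le
        · simp
      · have : (DD b D).card ≤ D := (card_filter_le _ _).trans (by simp)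
        simpa using this
    rw [abs_mul, abs_of_nonneg (Nat.cast_nonneg d), sq]
    exact mul_le_mul h3 h4 (abs_nonneg _) (Nat.cast_nonneg D)
  · set z : ℕ → ℝ := fun d => ∑ f ∈ DD b D, if d ∣ f then μ (f / d) * y f else 0 with hz
    have c2 : ∀ e ∈ DD b D, ∑ d ∈ DD b D, (if e ∣ d then z d else 0) = y e := by
      intro e he
      have a1 : ∑ d ∈ DD b D, (if e ∣ d then z d else 0) = ∑ d ∈ DD b D, ∑ f ∈ DD b D,
          (if d ∣ f then (if e ∣ d then (μ (f / d) : ℝ) else 0) else 0) * y f := by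
        refine sum_congr rfl fun d _ => ?_
        by_cases h : e ∣ d
        · simp only [h, if_true, hz, ite_mul, zero_mul]
        · simp [h]
      rw [a1, sum_comm]
      have a2 : ∀ f ∈ DD b D, ∑ d ∈ DD b D,
          (if d ∣ f then (if e ∣ d then (μ (f / d) : ℝ) else 0) else 0) * y f =
          if e = f then y f else 0 := by
        intro f hf
        rw [← sum_mul, sum_DD_dvd hf, mu_inner e f (mem_DD.mp hf).1.1]
        simp
      rw [sum_congr rfl a2]
      simp [he]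
    have c3 : ∀ d ∈ DD b D, ∀ d' ∈ DD b D, (d * z d) * (d' * z d') / (Nat.lcm d d') =
        ∑ e ∈ DD b D, (Nat.totient e : ℝ) * ((if e ∣ d then z d else 0) *
          (if e ∣ d' then z d' else 0)) := by
      intro d hd d' hd'
      have p1 : 0 < d := (mem_DD.mp hd).1.1
      have p2 : 0 < d' := (mem_DD.mp hd').1.1
      have a1 : ((Nat.gcd d d' : ℕ) : ℝ) = ∑ e ∈ DD b D,
          if e ∣ Nat.gcd d d' then (Nat.totient e : ℝ) else 0 := by
        rw [sum_DD_dvd (DD_dvd hd (Nat.gcd_dvd_left d d'))]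
        exact_mod_cast (Nat.sum_totient _).symm
      have a2 : ((Nat.gcd d d' : ℕ) : ℝ) * (Nat.lcm d d' : ℕ) = d * d' := by
        exact_mod_cast Nat.gcd_mul_lcm d d'
      have a3 : ((Nat.lcm d d' : ℕ) : ℝ) ≠ 0 := by exact_mod_cast (Nat.lcm_pos p1 p2).ne'
      have a4 : (d * z d) * (d' * z d') / (Nat.lcm d d') = (Nat.gcd d d' : ℕ) * (z d * z d') := by
        rw [div_eq_iff a3]; linear_combination (-(z d * z d')) * a2
      rw [a4, a1, sum_mul]
      refine sum_congr rfl fun e _ => ?_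
      by_cases h1 : e ∣ d <;> by_cases h2 : e ∣ d' <;> simp [h1, h2, Nat.dvd_gcd_iff]
    have c4 : ∑ d ∈ DD b D, ∑ d' ∈ DD b D, (d * z d) * (d' * z d') / (Nat.lcm d d') =
        ∑ e ∈ DD b D, (Nat.totient e : ℝ) * (y e * y e) := by
      rw [sum_congr rfl fun d hd => sum_congr rfl fun d' hd' => c3 d hd d' hd',
        sum_congr rfl fun d _ => sum_comm, sum_comm]
      refine sum_congr rfl fun e he => ?_
      rw [← c2 e he, sum_mul_sum, mul_sum]
      exact sum_congr rfl fun d _ => by rw [mul_sum]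
    refine c4.le.trans ?_
    have c5 : 1 / GG b D = ∑ e ∈ DD b D, (μ e : ℝ) ^ 2 / e / GG b D ^ 2 := by
      rw [← sum_div, ← GG]; field_simp
    rw [c5]
    refine sum_le_sum fun e he => ?_
    have p1 : (0 : ℝ) < e := by exact_mod_cast (mem_DD.mp he).1.1
    have p2 : (Nat.totient e : ℝ) ≤ e := by exact_mod_cast Nat.totient_le e
    calc _ ≤ (e : ℝ) * (y e * y e) := mul_le_mul_of_nonneg_right p2 (mul_self_nonneg _)
      _ = _ := by simp only [hy]; field_simp

/-- the upper bound sieve with a weight -/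
lemma sieve (b D : ℕ) (hD : 1 ≤ D) (I : Finset ℕ) (c : ℕ) (hc : D < c) (g : ℕ → ℝ)
    (hg : ∀ n, 0 ≤ g n) (R : ℝ)
    (hR : ∀ e, 0 < e → Nat.Coprime e b →
      |∑ n ∈ I, (if e ∣ c + n then g n else 0) - (∑ n ∈ I, g n) / e| ≤ R) :
    ∑ n ∈ I, (if (c + n).Prime then g n else 0) ≤ (∑ n ∈ I, g n) / GG b D + R * (D : ℝ) ^ 6 := by
  obtain ⟨l, l1, l2, l3⟩ := weights b D hD
  have h1 : 1 ∈ DD b D := mem_DD.mpr ⟨⟨le_rfl, hD⟩, by simp⟩
  have hR0 : 0 ≤ R := (abs_nonneg _).trans (hR 1 one_pos (by simp))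
  have s1 : ∑ n ∈ I, (if (c + n).Prime then g n else 0) ≤
      ∑ n ∈ I, g n * (∑ d ∈ DD b D, if d ∣ c + n then l d else 0) ^ 2 := by
    refine sum_le_sum fun n _ => ?_
    split_ifs with h
    · rw [sum_eq_single_of_mem 1 h1]
      · simp [l1]
      · intro d hd hd1
        refine if_neg fun hdv => ?_
        have := (mem_DD.mp hd).1.2
        rcases (Nat.dvd_prime h).mp hdv with h | h <;> omega
    · exact mul_nonneg (hg n) (sq_nonneg _)
  have s2 : ∑ n ∈ I, g n * (∑ d ∈ DD b D, if d ∣ c + n then l d else 0) ^ 2 =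
      ∑ d ∈ DD b D, ∑ d' ∈ DD b D, l d * l d' *
        ∑ n ∈ I, (if Nat.lcm d d' ∣ c + n then g n else 0) := by
    simp only [sq, sum_mul_sum]
    simp only [mul_sum]
    rw [sum_comm]
    refine sum_congr rfl fun d _ => ?_
    rw [sum_comm]
    refine sum_congr rfl fun d' _ => sum_congr rfl fun n _ => ?_
    by_cases h1 : d ∣ c + n <;> by_cases h2 : d' ∣ c + n <;> simp [h1, h2, Nat.lcm_dvd_iff]
    ring
  have s3 : ∀ d ∈ DD b D, ∀ d' ∈ DD b D, l d * l d' *
      ∑ n ∈ I, (if Nat.lcm d d' ∣ c + n then g n else 0) ≤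
      (∑ n ∈ I, g n) * (l d * l d' / (Nat.lcm d d')) + R * (D : ℝ) ^ 4 := by
    intro d hd d' hd'
    have a1 := hR _ (Nat.lcm_pos (mem_DD.mp hd).1.1 (mem_DD.mp hd').1.1)
      (Nat.Coprime.coprime_dvd_left (Nat.lcm_dvd_mul d d')
        (Nat.Coprime.mul_left (mem_DD.mp hd).2 (mem_DD.mp hd').2))
    have a2 : |l d * l d'| ≤ (D : ℝ) ^ 4 := by
      rw [abs_mul, show (D : ℝ) ^ 4 = D ^ 2 * D ^ 2 by ring]
      exact mul_le_mul (l2 d hd) (l2 d' hd') (abs_nonneg _) (by positivity)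
    have a3 := mul_le_mul a1 a2 (abs_nonneg _) hR0
    rw [← abs_mul] at a3
    have a4 := (le_abs_self _).trans a3
    linear_combination a4
  have hcard : ((DD b D).card : ℝ) ≤ D := by
    have : (DD b D).card ≤ D := (card_filter_le _ _).trans (by simp)
    exact_mod_cast this
  have hI : 0 ≤ ∑ n ∈ I, g n := sum_nonneg fun n _ => hg n
  calc _ ≤ _ := s1
    _ = _ := s2
    _ ≤ ∑ d ∈ DD b D, ∑ d' ∈ DD b D,
        ((∑ n ∈ I, g n) * (l d * l d' / (Nat.lcm d d')) + R * (D : ℝ) ^ 4) :=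
      sum_le_sum fun d hd => sum_le_sum fun d' hd' => s3 d hd d' hd'
    _ = (∑ n ∈ I, g n) * ∑ d ∈ DD b D, ∑ d' ∈ DD b D, l d * l d' / (Nat.lcm d d') +
        (DD b D).card * ((DD b D).card * (R * (D : ℝ) ^ 4)) := by
      simp only [sum_add_distrib, mul_sum, sum_const, nsmul_eq_mul]
    _ ≤ (∑ n ∈ I, g n) * (1 / GG b D) + D * (D * (R * (D : ℝ) ^ 4)) := by
      gcongr
    _ = _ := by ring

end Pool.Agent.Ha237
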