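import Mathlib
import Pool.Agent.H.MP_a23773_nt.A

set_option autoImplicit false

namespace Pool.Agent.Ha237

open Finset

lemma sum_range_mul (U y : ℕ) (F : ℕ → ℝ) :
    ∑ n ∈ range (U * y), F n = ∑ j ∈ range y, ∑ lo ∈ range U, F (lo + U * j) := by
  induction y with
  | zero => simp
  | succ y ih =>
    rw [Nat.mul_succ, sum_range_add, ih, sum_range_succ]
    simp only [add_comm]

lemma count_dvd (e U W c : ℕ) (he : 0 < e) (hU : Nat.Coprime e U) :
    |∑ x ∈ range W, (if e ∣ c + U * x then (1 : ℝ) else 0) - W / e| ≤ 1 := by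
  obtain ⟨v, hv⟩ : ∃ v, e ∣ c + U * v := by
    obtain ⟨u, hu⟩ := Nat.exists_mul_mod_eq_of_coprime (e - 1) hU.symm he.ne' |>.imp fun _ h => h.2
    refine ⟨u * c, (Nat.modEq_zero_iff_dvd).mp ?_⟩
    have h1 : U * u ≡ e - 1 [MOD e] := hu
    have h2 : c + U * (u * c) ≡ c + (e - 1) * c [MOD e] := by
      rw [← mul_assoc]; exact (h1.mul_right c).add_left c
    refine h2.trans ((Nat.modEq_zero_iff_dvd).mpr ⟨c, ?_⟩)
    obtain ⟨f, rfl⟩ : ∃ f, e = f + 1 := ⟨e - 1, by omega⟩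
    simp; ring
  have h1 : ∀ x, e ∣ c + U * x ↔ x ≡ v [MOD e] := by
    intro x
    rw [← Nat.modEq_zero_iff_dvd] at hv ⊢
    constructor
    · intro h
      exact Nat.ModEq.cancel_left_of_coprime hU (Nat.ModEq.add_left_cancel' c (h.trans hv.symm))
    · intro h
      exact ((h.mul_left U).add_left c).trans hv
  simp only [h1]
  rw [sum_boole, ← Nat.count_eq_card_filter_range, Nat.count_modEq_card W he v]
  have he' : (0 : ℝ) < e := by exact_mod_cast he
  have h2 : ((W / e : ℕ) : ℝ) ≤ W / e := Nat.cast_div_le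
  have h3 : (W : ℝ) / e < (W / e : ℕ) + 1 := by
    rw [div_lt_iff₀ he']
    have := Nat.lt_mul_div_succ W he
    have : (W : ℝ) < e * ((W / e : ℕ) + 1) := by exact_mod_cast this
    linarith
  rw [abs_le]
  split_ifs <;> push_cast <;> constructor <;> linarith

lemma window (e U W V c : ℕ) (he : 0 < e) (hU : Nat.Coprime e U) (g : ℕ → ℝ) (M : ℝ)
    (hM : ∀ n, |g n| ≤ M)
    (hg : ∀ n n', n % U = n' % U → n / (U * W) = n' / (U * W) → g n = g n') :
    |∑ n ∈ range (U * (W * V)), (if e ∣ c + n then g n else 0) -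
      (∑ n ∈ range (U * (W * V)), g n) / e| ≤ M * (U * V) := by
  have key : ∀ F : ℕ → ℝ, ∑ n ∈ range (U * (W * V)), F n =
      ∑ hi ∈ range V, ∑ lo ∈ range U, ∑ x ∈ range W, F (lo + U * (x + W * hi)) := by
    intro F
    rw [sum_range_mul, sum_range_mul]
    exact sum_congr rfl fun hi _ => sum_comm
  rw [key, key, sum_div, ← sum_sub_distrib]
  refine (abs_sum_le_sum_abs _ _).trans ((sum_le_card_nsmul _ _ (M * U) fun hi _ => ?_).trans
    (by simp; linarith))
  rw [sum_div, ← sum_sub_distrib]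
  refine (abs_sum_le_sum_abs _ _).trans ((sum_le_card_nsmul _ _ M fun lo hlo => ?_).trans
    (by simp; linarith))
  have hlo' := mem_range.mp hlo
  have h1 : ∀ x ∈ range W, g (lo + U * (x + W * hi)) = g (lo + U * (W * hi)) := by
    intro x hx
    have hx' := mem_range.mp hx
    refine hg _ _ (by simp) ?_
    rw [← Nat.div_div_eq_div_mul, ← Nat.div_div_eq_div_mul,
      Nat.add_mul_div_left _ _ (by omega), Nat.add_mul_div_left _ _ (by omega),
      Nat.div_eq_of_lt hlo', zero_add, zero_add, Nat.add_mul_div_left _ _ (by omega),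
      Nat.div_eq_of_lt hx', Nat.mul_div_cancel_left _ (by omega), zero_add]
  have h2 : ∑ x ∈ range W, (if e ∣ c + (lo + U * (x + W * hi)) then g (lo + U * (x + W * hi)) else 0)
      = g (lo + U * (W * hi)) *
        ∑ x ∈ range W, (if e ∣ (c + lo + U * (W * hi)) + U * x then (1 : ℝ) else 0) := by
    rw [mul_sum]
    refine sum_congr rfl fun x hx => ?_
    rw [h1 x hx, show c + (lo + U * (x + W * hi)) = (c + lo + U * (W * hi)) + U * x by ring]
    simp
  rw [h2, sum_congr rfl h1, sum_const, card_range, nsmul_eq_mul, mul_comm (W : ℝ), mul_div_assoc,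
    ← mul_sub, abs_mul]
  calc _ ≤ M * 1 := mul_le_mul (hM _) (count_dvd e U W _ he hU) (abs_nonneg _)
        ((abs_nonneg _).trans (hM 0))
    _ = M := mul_one M

/-- the `q`-th digit in base `B` of `n / U` -/
def dig (U B q n : ℕ) : ℕ := n / (U * B ^ q) % B

lemma dig_lt (U : ℕ) {B : ℕ} (hB : 0 < B) (q n : ℕ) : dig U B q n < B := Nat.mod_lt _ hB

lemma dig_mod (U B : ℕ) {q r : ℕ} (h : q < r) (n : ℕ) :
    dig U B q (n % (U * B ^ r)) = dig U B q n := by
  unfold dig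
  rw [← Nat.mod_mul_right_div_self, ← Nat.mod_mul_right_div_self n, Nat.mod_mod_of_dvd]
  rw [mul_assoc, ← pow_succ]
  exact Nat.mul_dvd_mul_left U (pow_dvd_pow B h)

lemma dig_div (U B r q n : ℕ) : dig U B (r + q) n = dig 1 B q (n / (U * B ^ r)) := by
  unfold dig
  rw [Nat.div_div_eq_div_mul, pow_add, one_mul, mul_assoc]

lemma win3 (e U B w c : ℕ) (he : 0 < e) (hU : Nat.Coprime e U) (hB : Nat.Coprime e B) (q q' : ℕ)
    (g : ℕ → ℕ → ℝ) (M : ℝ) (hM : ∀ n, |g (dig U B q n) (dig U B q' n)| ≤ M) :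
    |∑ n ∈ range (U * B ^ (3 * w)), (if e ∣ c + n then g (dig U B q n) (dig U B q' n) else 0) -
      (∑ n ∈ range (U * B ^ (3 * w)), g (dig U B q n) (dig U B q' n)) / e| ≤
      M * (U * B ^ (2 * w) : ℕ) := by
  obtain ⟨x, y, hxy, h1, h2⟩ : ∃ x y, x + y = 2 * w ∧ (q < x ∨ x + w ≤ q) ∧ (q' < x ∨ x + w ≤ q') := by
    by_cases a : w ≤ q ∧ w ≤ q'
    · exact ⟨0, 2 * w, by omega, by omega, by omega⟩
    by_cases b : q < 2 * w ∧ q' < 2 * w
    · exact ⟨2 * w, 0, by omega, by omega, by omega⟩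
    · exact ⟨w, w, by omega, by omega, by omega⟩
  have hd : ∀ q, (q < x ∨ x + w ≤ q) → ∀ n n', n % (U * B ^ x) = n' % (U * B ^ x) →
      n / (U * B ^ x * B ^ w) = n' / (U * B ^ x * B ^ w) → dig U B q n = dig U B q n' := by
    rintro q (h | h) n n' a b
    · rw [← dig_mod U B h n, a, dig_mod U B h]
    · obtain ⟨k, rfl⟩ := Nat.exists_eq_add_of_le h
      rw [dig_div, dig_div, pow_add, ← mul_assoc, b]
  have := window e (U * B ^ x) (B ^ w) (B ^ y) c he (hU.mul_right (hB.pow_right x))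
    (fun n => g (dig U B q n) (dig U B q' n)) M hM
    (fun n n' a b => by simp only [hd q h1 n n' a b, hd q' h2 n n' a b])
  have e1 : U * B ^ x * (B ^ w * B ^ y) = U * B ^ (3 * w) := by
    rw [show 3 * w = x + (w + y) by omega]; ring
  have e2 : ((U * B ^ x : ℕ) : ℝ) * (B ^ y : ℕ) = (U * B ^ (2 * w) : ℕ) := by
    rw [← hxy]; push_cast; ring
  rwa [e1, e2] at this

/-- additive digit statistic -/
noncomputable def Phi (U B : ℕ) (v : ℕ → ℝ) (t n : ℕ) : ℝ := ∑ q ∈ range t, v (dig U B q n)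

lemma Phi_mod (U B : ℕ) (v : ℕ → ℝ) (t n : ℕ) : Phi U B v t (n % (U * B ^ t)) = Phi U B v t n :=
  sum_congr rfl fun q hq => by rw [dig_mod U B (mem_range.mp hq)]

lemma Phi_add (U B : ℕ) (v : ℕ → ℝ) (t r n : ℕ) :
    Phi U B v (t + r) n = Phi U B v t n + Phi 1 B v r (n / (U * B ^ t)) := by
  unfold Phi
  rw [sum_range_add]
  simp only [dig_div]

lemma Phi_top (U B : ℕ) (v : ℕ → ℝ) (t lo u : ℕ) (h1 : lo < U * B ^ t) (h2 : u < B) :
    Phi U B v (t + 1) (lo + U * B ^ t * u) = Phi U B v t lo + v u := by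
  rw [Phi_add, ← Phi_mod U B v t, Nat.add_mul_mod_self_left, Nat.mod_eq_of_lt h1,
    Nat.add_mul_div_left _ _ (by omega), Nat.div_eq_of_lt h1]
  simp [Phi, dig, Nat.mod_eq_of_lt h2]

lemma sum_top (U B t : ℕ) (F : ℕ → ℝ) : ∑ n ∈ range (U * B ^ (t + 1)), F n =
    ∑ lo ∈ range (U * B ^ t), ∑ u ∈ range B, F (lo + U * B ^ t * u) := by
  rw [pow_succ, ← mul_assoc, sum_range_mul, sum_comm]

lemma Phi_sq (U B : ℕ) (v : ℕ → ℝ) (hv : ∑ u ∈ range B, v u = 0) (t : ℕ) :
    B * ∑ n ∈ range (U * B ^ t), Phi U B v t n ^ 2 = U * B ^ t * t * ∑ u ∈ range B, v u ^ 2 := by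
  induction t with
  | zero => simp [Phi]
  | succ t ih =>
    rw [sum_top]
    have : ∀ lo ∈ range (U * B ^ t), ∑ u ∈ range B, Phi U B v (t + 1) (lo + U * B ^ t * u) ^ 2 =
        B * Phi U B v t lo ^ 2 + ∑ u ∈ range B, v u ^ 2 := by
      intro lo hlo
      rw [sum_congr rfl fun u hu => by rw [Phi_top U B v t lo u (mem_range.mp hlo) (mem_range.mp hu)]]
      simp only [add_sq, sum_add_distrib, ← mul_sum, hv, sum_const, card_range, nsmul_eq_mul]
      ring
    rw [sum_congr rfl this, sum_add_distrib, ← mul_sum, ih, sum_const, card_range, nsmul_eq_mul]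
    push_cast
    ring

/-- centred indicator of the digit `k` -/
noncomputable def ind (B k u : ℕ) : ℝ := (if u = k then 1 else 0) - 1 / B

lemma sum_ind {B k : ℕ} (hk : k < B) : ∑ u ∈ range B, ind B k u = 0 := by
  have : (B : ℝ) ≠ 0 := by exact_mod_cast (by omega : B ≠ 0)
  simp [ind, sum_sub_distrib, hk, this]

lemma ind_comm (B k u : ℕ) : ind B k u = ind B u k := by simp only [ind, eq_comm]

lemma sum_ind_mul {B k : ℕ} (hk : k < B) (v : ℕ → ℝ) (hv : ∑ u ∈ range B, v u = 0) :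
    ∑ u ∈ range B, v u * ind B u k = v k := by
  simp only [ind, mul_sub, sum_sub_distrib, ← sum_mul, hv, mul_ite, mul_one, mul_zero]
  simp [hk]

lemma sum_ind_sq {B k : ℕ} (hk : k < B) : ∑ u ∈ range B, ind B k u ^ 2 = 1 - 1 / B := by
  have := sum_ind_mul hk (ind B k) (sum_ind hk)
  simp only [sq]
  rw [sum_congr rfl fun u _ => by rw [ind_comm B k u]] at this ⊢
  rw [this]; simp [ind]

lemma sum_Phi_ind (U : ℕ) {B : ℕ} (hB : 0 < B) (t n : ℕ) :
    ∑ k ∈ range B, Phi U B (ind B k) t n = 0 := by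
  unfold Phi
  rw [sum_comm]
  exact sum_eq_zero fun q _ => by
    rw [sum_congr rfl fun u _ => ind_comm B u _]; exact sum_ind (dig_lt U hB q n)

lemma sum_mul_Phi_ind (U : ℕ) {B : ℕ} (hB : 0 < B) (v : ℕ → ℝ) (hv : ∑ u ∈ range B, v u = 0)
    (t n : ℕ) : ∑ k ∈ range B, v k * Phi U B (ind B k) t n = Phi U B v t n := by
  unfold Phi
  simp only [mul_sum]
  rw [sum_comm]
  exact sum_congr rfl fun q _ => sum_ind_mul (dig_lt U hB q n) v hv

/-- deviation of the squared length of the digit count vector from its mean -/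
noncomputable def ZZ (B r a : ℕ) : ℝ :=
  ∑ k ∈ range B, Phi 1 B (ind B k) r a ^ 2 - r * (1 - 1 / B)

lemma sum_ZZ {B : ℕ} (hB : 0 < B) (r : ℕ) :
    B * ∑ a ∈ range (1 * B ^ r), ZZ B r a ^ 2 ≤ 2 * r ^ 2 * B ^ r := by
  have hB' : (0 : ℝ) < B := by exact_mod_cast hB
  induction r with
  | zero => simp [ZZ, Phi]
  | succ r ih =>
    rw [sum_top]
    have h1 : ∀ lo ∈ range (1 * B ^ r), ∀ u ∈ range B,
        ZZ B (r + 1) (lo + 1 * B ^ r * u) = ZZ B r lo + 2 * Phi 1 B (ind B u) r lo := by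
      intro lo hlo u hu
      unfold ZZ
      rw [sum_congr rfl fun k _ => by rw [Phi_top 1 B _ r lo u (mem_range.mp hlo) (mem_range.mp hu)]]
      have a1 := sum_ind_mul (mem_range.mp hu) _ (sum_Phi_ind 1 hB r lo)
      have a2 := sum_ind_sq (mem_range.mp hu)
      rw [sum_congr rfl fun k _ => by rw [ind_comm B u k]] at a2
      simp only [add_sq, sum_add_distrib, mul_assoc, ← mul_sum, a1, a2]
      push_cast; ring
    have h2 : ∀ lo ∈ range (1 * B ^ r), ∑ u ∈ range B, ZZ B (r + 1) (lo + 1 * B ^ r * u) ^ 2 =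
        B * ZZ B r lo ^ 2 + 4 * ∑ u ∈ range B, Phi 1 B (ind B u) r lo ^ 2 := by
      intro lo hlo
      rw [sum_congr rfl fun u hu => by rw [h1 lo hlo u hu]]
      simp only [add_sq, sum_add_distrib, mul_pow, ← mul_sum, sum_Phi_ind 1 hB r lo, sum_const,
        card_range, nsmul_eq_mul]
      ring
    have h3 : ∑ lo ∈ range (1 * B ^ r), ∑ u ∈ range B, Phi 1 B (ind B u) r lo ^ 2 ≤ B ^ r * r := by
      rw [sum_comm]
      have : ∀ u ∈ range B, ∑ lo ∈ range (1 * B ^ r), Phi 1 B (ind B u) r lo ^ 2 ≤ B ^ r * r / B := by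
        intro u hu
        have a1 := Phi_sq 1 B (ind B u) (sum_ind (mem_range.mp hu)) r
        rw [sum_ind_sq (mem_range.mp hu)] at a1
        rw [le_div_iff₀ hB', mul_comm, a1]
        have : (0 : ℝ) ≤ B ^ r * r * (1 / B) := by positivity
        push_cast; nlinarith
      refine (sum_le_card_nsmul _ _ _ this).trans ?_
      rw [card_range, nsmul_eq_mul, mul_div_cancel₀ _ hB'.ne']
    rw [sum_congr rfl h2, sum_add_distrib, ← mul_sum, ← mul_sum]
    have h4 : (0 : ℝ) ≤ B ^ r := by positivity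
    push_cast
    rw [pow_succ (B : ℝ) r]
    nlinarith [mul_le_mul_of_nonneg_left ih hB'.le, mul_le_mul_of_nonneg_left h3 hB'.le,
      mul_nonneg h4 hB'.le]

lemma sum_ZZ' {B : ℕ} (hB : 0 < B) (r T : ℕ) :
    B * ∑ a ∈ range (B ^ r * T), ZZ B r a ^ 2 ≤ 2 * r ^ 2 * (B ^ r * T : ℕ) := by
  have h1 : ∀ j lo, ZZ B r (lo + B ^ r * j) = ZZ B r lo := by
    intro j lo
    unfold ZZ
    rw [sum_congr rfl fun k _ => by
      rw [← Phi_mod 1 B _ r (lo + B ^ r * j), one_mul, Nat.add_mul_mod_self_left, ← one_mul (B ^ r),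
        Phi_mod]]
  rw [sum_range_mul]
  simp only [h1, sum_const, card_range, nsmul_eq_mul]
  have := sum_ZZ hB r
  rw [one_mul] at this
  have hT : (0 : ℝ) ≤ T := by positivity
  push_cast
  nlinarith [mul_le_mul_of_nonneg_left this hT]

/-- sieve bounds for the number of primes and for the second moment of a digit statistic -/
lemma sieve_dig (b U B w D c : ℕ) (hD : 1 ≤ D) (hc : D < c) (hB : 0 < B)
    (hcop : ∀ e, Nat.Coprime e b → Nat.Coprime e U ∧ Nat.Coprime e B) :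
    (∑ n ∈ range (U * B ^ (3 * w)), (if (c + n).Prime then (1 : ℝ) else 0) ≤
      (U * B ^ (3 * w) : ℕ) / GG b D + (U * B ^ (2 * w) : ℕ) * (D : ℝ) ^ 6) ∧
    ∀ v : ℕ → ℝ, ∑ u ∈ range B, v u = 0 →
      ∑ n ∈ range (U * B ^ (3 * w)), (if (c + n).Prime then Phi U B v (3 * w) n ^ 2 else 0) ≤
        ((U * B ^ (3 * w) : ℕ) / GG b D + (3 * w * B : ℕ) * ((U * B ^ (2 * w) : ℕ) * (D : ℝ) ^ 6)) *
          ((3 * w : ℕ) / B * ∑ u ∈ range B, v u ^ 2) := by
  constructor
  · have := sieve b D hD (range (U * B ^ (3 * w))) c hc (fun _ => 1) (fun _ => zero_le_one) _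
      fun e he hb => win3 e U B w c he (hcop e hb).1 (hcop e hb).2 0 0 (fun _ _ => 1) 1 (by simp)
    simpa using this
  · intro v hv
    have hB' : (0 : ℝ) < B := by exact_mod_cast hB
    set V := ∑ u ∈ range B, v u ^ 2 with hV
    have hvV : ∀ u < B, ∀ u' < B, |v u * v u'| ≤ V := by
      intro u hu u' hu'
      have a1 : v u ^ 2 ≤ V := single_le_sum (f := fun u => v u ^ 2) (fun _ _ => sq_nonneg _)
        (mem_range.mpr hu)
      have a2 : v u' ^ 2 ≤ V := single_le_sum (f := fun u => v u ^ 2) (fun _ _ => sq_nonneg _)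
        (mem_range.mpr hu')
      rw [abs_le]
      constructor <;> nlinarith [sq_nonneg (v u + v u'), sq_nonneg (v u - v u')]
    have := sieve b D hD (range (U * B ^ (3 * w))) c hc (fun n => Phi U B v (3 * w) n ^ 2)
      (fun _ => sq_nonneg _) ((3 * w : ℕ) * ((3 * w : ℕ) * (V * (U * B ^ (2 * w) : ℕ)))) (by
        intro e he hb
        have e1 : ∀ n, Phi U B v (3 * w) n ^ 2 = ∑ q ∈ range (3 * w), ∑ q' ∈ range (3 * w),
            v (dig U B q n) * v (dig U B q' n) := fun n => by rw [sq, Phi, sum_mul_sum]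
        have e2 : ∀ n, (if e ∣ c + n then Phi U B v (3 * w) n ^ 2 else 0) =
            ∑ q ∈ range (3 * w), ∑ q' ∈ range (3 * w),
              (if e ∣ c + n then v (dig U B q n) * v (dig U B q' n) else 0) := fun n => by
          split_ifs
          · exact e1 n
          · simp
        simp only [e2]
        simp only [e1]
        rw [sum_comm, sum_comm (s := range (U * B ^ (3 * w))), sum_div, ← sum_sub_distrib]
        refine (abs_sum_le_sum_abs _ _).trans ((sum_le_card_nsmul _ _ _ fun q _ => ?_).trans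
          (by rw [card_range, nsmul_eq_mul]))
        rw [sum_comm, sum_comm (s := range (U * B ^ (3 * w))), sum_div, ← sum_sub_distrib]
        refine (abs_sum_le_sum_abs _ _).trans ((sum_le_card_nsmul _ _ _ fun q' _ => ?_).trans
          (by rw [card_range, nsmul_eq_mul]))
        exact win3 e U B w c he (hcop e hb).1 (hcop e hb).2 q q' (fun u u' => v u * v u') V
          fun n => hvV _ (dig_lt U hB q n) _ (dig_lt U hB q' n))
    refine this.trans (le_of_eq ?_)
    have a1 := Phi_sq U B v hv (3 * w)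
    have a2 : ∑ n ∈ range (U * B ^ (3 * w)), Phi U B v (3 * w) n ^ 2 =
        U * B ^ (3 * w) * (3 * w : ℕ) * V / B := by
      rw [eq_div_iff hB'.ne', mul_comm, a1]
    rw [a2]
    push_cast
    field_simp

lemma per_a {B : ℕ} (hB : 2 ≤ B) (p E ν r : ℝ) (v X : ℕ → ℝ) (hp : 0 ≤ p) (hE : 0 ≤ E)
    (hr : 64 * B ≤ r) (h1 : p ≤ ν) (h2 : ∀ k < B, |v k + p * X k| ≤ p + 2 * E)
    (h3 : ∑ k ∈ range B, v k ^ 2 ≤ p * (ν * (3 * r / B))) :
    p ≤ 2 * E + 48 * ν / B + 16 * ν / r ^ 2 * (∑ k ∈ range B, X k ^ 2 - r * (1 - 1 / B)) ^ 2 := by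
  have hB' : (2 : ℝ) ≤ B := by exact_mod_cast hB
  have hν : 0 ≤ ν := hp.trans h1
  have hr0 : 0 < r := by linarith
  set Q := ∑ k ∈ range B, X k ^ 2 with hQ
  have t1 : 0 ≤ 48 * ν / B := by positivity
  have t2 : 0 ≤ 16 * ν / r ^ 2 * (Q - r * (1 - 1 / B)) ^ 2 := by positivity
  by_cases c1 : p ≤ 2 * E
  · linarith
  have hinv : 1 / (B : ℝ) ≤ 1 / 2 := one_div_le_one_div_of_le (by norm_num) hB'
  by_cases c2 : Q ≤ r / 4
  · have a1 : r / 4 ≤ r * (1 - 1 / B) - Q := by nlinarith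
    have a2 : (r / 4) ^ 2 ≤ (Q - r * (1 - 1 / B)) ^ 2 := by nlinarith
    have a3 : 16 * ν / r ^ 2 * (r / 4) ^ 2 = ν := by field_simp; ring
    have a4 := mul_le_mul_of_nonneg_left a2 (by positivity : 0 ≤ 16 * ν / r ^ 2)
    linarith
  push Not at c1 c2
  have hp0 : 0 < p := by linarith
  have a1 : p ^ 2 * Q ≤ 2 * ∑ k ∈ range B, v k ^ 2 + B * (8 * p ^ 2) := by
    rw [hQ, mul_sum, mul_sum, ← card_range B, ← nsmul_eq_mul, ← sum_const, card_range,
      ← sum_add_distrib]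
    refine sum_le_sum fun k hk => ?_
    have b1 := abs_le.mp (h2 k (mem_range.mp hk))
    have b2 : (v k + p * X k) ^ 2 ≤ (2 * p) ^ 2 := by nlinarith
    nlinarith [sq_nonneg (2 * v k + p * X k)]
  have a2 : p * (p * r / 8) ≤ p * (6 * (ν * r / B)) := by
    have b1 : p ^ 2 * (r / 4) ≤ p ^ 2 * Q := mul_le_mul_of_nonneg_left c2.le (sq_nonneg _)
    have b2 : B * (8 * p ^ 2) ≤ r / 64 * (8 * p ^ 2) :=
      mul_le_mul_of_nonneg_right (by linarith) (by positivity)
    have b3 : p * (ν * (3 * r / B)) = 3 * (p * (ν * r / B)) := by ring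
    nlinarith
  have a3 := le_of_mul_le_mul_left a2 hp0
  have a4 : r * p ≤ r * (48 * ν / B) := by
    have : r * (48 * ν / B) = 8 * (6 * (ν * r / B)) := by ring
    linarith
  have := le_of_mul_le_mul_left a4 hr0
  linarith

end Pool.Agent.Ha237
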