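import Mathlib
import Pool.Agent.H.MP_a23773_nt.B

set_option autoImplicit false

namespace Pool.Agent.Ha237

open Finset

lemma sum_digits_mod (b x m : ℕ) : ∑ i ∈ range m, x / b ^ (m - 1 - i) % b * b ^ (m - 1 - i) = x % b ^ m := by
  rw [sum_range_reflect (fun i => x / b ^ i % b * b ^ i) m]
  induction m with
  | zero => simp [Nat.mod_one]
  | succ m ih => rw [sum_range_succ, ih, Nat.mod_pow_succ, mul_comm]

lemma abs_ind_le {B : ℕ} (k u : ℕ) (hB : 0 < B) : |ind B k u| ≤ 1 := by
  have h1 : (1 : ℝ) ≤ B := by exact_mod_cast hB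
  have h2 : 1 / (B : ℝ) ≤ 1 := div_le_one_of_le₀ h1 (by linarith)
  have h3 : 0 ≤ 1 / (B : ℝ) := by positivity
  unfold ind
  rw [abs_le]
  split_ifs <;> constructor <;> linarith

/-- the `j`-th block of length `m` -/
def blk (d : ℕ → ℕ) (m j : ℕ) : ℕ := ∑ i ∈ range m, d (j * m + i) * 10 ^ (m - 1 - i)

noncomputable def dev (d : ℕ → ℕ) (m k n : ℕ) : ℝ := ∑ j ∈ range n, ind (10 ^ m) k (blk d m j)

lemma len_eq {l y : ℕ} (h1 : 10 ^ l ≤ y) (h2 : y < 10 ^ (l + 1)) :
    (Nat.digits 10 y).length = l + 1 := by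
  have a1 := (Nat.digits_length_le_iff (b := 10) (k := l + 1) (by norm_num) y).mpr h2
  have a2 := (Nat.digits_length_le_iff (b := 10) (k := l) (by norm_num) y).not.mpr (by omega)
  omega

section
variable (d T : ℕ → ℕ)
  (hT : ∀ y, T (y + 1) = T y + if y.Prime then (Nat.digits 10 y).length else 0)
  (hd : ∀ y j, y.Prime → j < (Nat.digits 10 y).length →
    d (T y + j) = y / 10 ^ ((Nat.digits 10 y).length - 1 - j) % 10)
include hT hd

lemma seg (m s u L l c j0 : ℕ) (hsu : s + u = m) (hl : l + 1 = m * (L + 1)) (hc : 10 ^ l ≤ c)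
    (hj : T c + s = j0 * m) : ∀ h, c + h ≤ 10 ^ (l + 1) → ∃ j1, T (c + h) + s = j1 * m ∧ ∀ k,
      |dev d m k j1 - dev d m k j0 - ∑ n ∈ range h,
        (if (c + n).Prime then Phi (10 ^ u) (10 ^ m) (ind (10 ^ m) k) L (c + n) else 0)| ≤
        ∑ n ∈ range h, (if (c + n).Prime then (1 : ℝ) else 0) := by
  intro h
  induction h with
  | zero => exact fun _ => ⟨j0, hj, by simp⟩
  | succ h ih =>
    intro hh
    obtain ⟨j1, a1, a2⟩ := ih (by omega)
    by_cases hp : (c + h).Prime
    · have hlen := len_eq (l := l) (y := c + h) (by omega) (by omega)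
      refine ⟨j1 + (L + 1), ?_, fun k => ?_⟩
      · rw [← add_assoc, hT, if_pos hp, hlen, hl, add_right_comm, a1]; ring
      · have b1 : ∀ q ∈ range L, blk d m (j1 + q) = dig (10 ^ u) (10 ^ m) (L - 1 - q) (c + h) := by
          intro q hq
          obtain ⟨q', rfl⟩ : ∃ q', L = q + q' + 1 := ⟨L - q - 1, by have := mem_range.mp hq; omega⟩
          unfold blk dig
          rw [← sum_digits_mod 10 _ m]
          refine sum_congr rfl fun x hx => ?_
          obtain ⟨x', hx'⟩ : ∃ x', m = x + x' + 1 := ⟨m - x - 1, by have := mem_range.mp hx; omega⟩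
          have e0 : l = (s + q * m + x) + (u + m * q' + x') := by nlinarith
          have e1 : (j1 + q) * m + x = T (c + h) + (s + q * m + x) := by
            rw [add_mul, ← a1]; ring
          rw [e1, hd _ _ hp (by rw [hlen]; omega), hlen, Nat.div_div_eq_div_mul, ← pow_mul,
            ← pow_add, ← pow_add, show q + q' + 1 - 1 - q = q' by omega,
            show m - 1 - x = x' by omega, show l + 1 - 1 - (s + q * m + x) = u + m * q' + x' by omega]
        have b2 : dev d m k (j1 + (L + 1)) = dev d m k j1 +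
            Phi (10 ^ u) (10 ^ m) (ind (10 ^ m) k) L (c + h) + ind (10 ^ m) k (blk d m (j1 + L)) := by
          unfold dev Phi
          rw [sum_range_add, sum_range_succ, sum_congr (s₁ := range L) rfl fun q hq => by rw [b1 q hq],
            sum_range_reflect (fun q => ind (10 ^ m) k (dig (10 ^ u) (10 ^ m) q (c + h))) L, add_assoc]
        have b3 := abs_le.mp (abs_ind_le (B := 10 ^ m) k (blk d m (j1 + L)) (by positivity))
        have b4 := abs_le.mp (a2 k)
        rw [sum_range_succ, sum_range_succ, if_pos hp, if_pos hp, b2, abs_le]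
        constructor <;> linarith
    · refine ⟨j1, by rw [← add_assoc, hT, if_neg hp]; exact a1, fun k => ?_⟩
      rw [sum_range_succ, sum_range_succ, if_neg hp, if_neg hp, add_zero, add_zero]
      exact a2 k

omit hd in
lemma T_le (h0 : T 0 = 0) (l : ℕ) : ∀ y ≤ 10 ^ l, T y ≤ l * y := by
  intro y
  induction y with
  | zero => simp [h0]
  | succ y ih =>
    intro hy
    have a1 := ih (by omega)
    have a2 := (Nat.digits_length_le_iff (b := 10) (k := l) (by norm_num) y).mpr (by omega)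
    rw [hT, mul_add]
    split_ifs <;> omega

/-- the number of primes with `l + 1` digits is small if all block counts are nearly exact -/
lemma primes_le (m s u w l D : ℕ) (hm : 0 < m) (hsu : s + 1 + u = m) (hl : l + 1 = m * (3 * w + w + 1))
    (j0 : ℕ) (hj : T (10 ^ l) + (s + 1) = j0 * m) (hD : 1 ≤ D) (hDl : D < 10 ^ l)
    (hw : 64 * 10 ^ m ≤ w) (E : ℝ) (hE0 : 0 ≤ E)
    (hE : ∀ y ≤ 10 ^ (l + 1), ∀ j, T y + (s + 1) = j * m → ∀ k < 10 ^ m, |dev d m k j| ≤ E)
    (ν : ℝ) (hν : ν = (10 ^ u * (10 ^ m) ^ (3 * w) : ℕ) / GG 10 D +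
      (3 * w * 10 ^ m : ℕ) * ((10 ^ u * (10 ^ m) ^ (2 * w) : ℕ) * (D : ℝ) ^ 6)) :
    ∑ n ∈ range (10 ^ (l + 1)), (if n.Prime then (1 : ℝ) else 0) -
      ∑ n ∈ range (10 ^ l), (if n.Prime then (1 : ℝ) else 0) ≤
      (2 * E + 80 * ν / (10 ^ m : ℕ)) * ((10 ^ m) ^ w * 10 ^ (s + 1) : ℕ) := by
  have hB2 : 2 ≤ 10 ^ m := le_trans (by norm_num) (Nat.pow_le_pow_right (by norm_num) hm)
  have hcop : ∀ e, Nat.Coprime e 10 → Nat.Coprime e (10 ^ u) ∧ Nat.Coprime e (10 ^ m) :=
    fun e he => ⟨he.pow_right _, he.pow_right _⟩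
  have e0 : 10 ^ l = 10 ^ u * (10 ^ m) ^ (3 * w) * ((10 ^ m) ^ w * 10 ^ s) := by
    rw [← pow_mul, ← pow_mul, ← pow_add, ← pow_add, ← pow_add]
    congr 1
    nlinarith
  have e1 : 10 ^ (l + 1) = 10 ^ u * (10 ^ m) ^ (3 * w) * ((10 ^ m) ^ w * 10 ^ (s + 1)) := by
    rw [pow_succ, e0]; ring
  have sg := seg d T hT hd m (s + 1) u (3 * w + w) l
  generalize 10 ^ m = B at *
  generalize hU : 10 ^ u = U at *
  set H := U * B ^ (3 * w) with hH
  have hH0 : 0 < H := by rw [hH, ← hU]; positivity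
  set A0 := B ^ w * 10 ^ s with hA0
  set A := B ^ w * 10 ^ (s + 1) with hA
  have hAA : A0 ≤ A := Nat.mul_le_mul_left _ (Nat.pow_le_pow_right (by norm_num) (by omega))
  have hB' : (0 : ℝ) < B := by exact_mod_cast (by omega : 0 < B)
  have hw' : (64 : ℝ) * B ≤ w := by exact_mod_cast hw
  have hG := one_le_GG (b := 10) hD
  have hν0 : 0 ≤ ν := by rw [hν]; positivity
  have key : ∀ a ∈ Ico A0 A, ∑ n ∈ range H, (if (n + H * a).Prime then (1 : ℝ) else 0) ≤
      2 * E + 48 * ν / B + 16 * ν / w ^ 2 * ZZ B w a ^ 2 := by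
    intro a ha
    obtain ⟨ha1, ha2⟩ := mem_Ico.mp ha
    have c1 : 10 ^ l ≤ H * a := e0 ▸ Nat.mul_le_mul_left H ha1
    have c2 : H * a + H ≤ 10 ^ (l + 1) := e1 ▸ Nat.mul_le_mul_left H ha2
    obtain ⟨j1, b1, -⟩ := sg (10 ^ l) j0 hsu hl le_rfl hj (H * a - 10 ^ l) (by omega)
    rw [Nat.add_sub_cancel' c1] at b1
    obtain ⟨j2, b2, b3⟩ := sg (H * a) j1 hsu hl c1 b1 H c2
    obtain ⟨s1, s2⟩ := sieve_dig 10 U B w D (H * a) hD (by omega) (by omega) hcop
    rw [← hH, ← hν] at s2
    simp only [add_comm _ (H * a)]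
    set p := ∑ n ∈ range H, (if (H * a + n).Prime then (1 : ℝ) else 0) with hp
    have hp0 : 0 ≤ p := sum_nonneg fun _ _ => by split_ifs <;> norm_num
    set v : ℕ → ℝ := fun k => ∑ n ∈ range H,
      (if (H * a + n).Prime then Phi U B (ind B k) (3 * w) n else 0) with hv
    refine per_a hB2 p E ν w v (fun k => Phi 1 B (ind B k) w a) hp0 hE0 hw' ?_ ?_ ?_
    · refine s1.trans ?_
      rw [hν]
      have : (1 : ℝ) ≤ (3 * w * B : ℕ) := by
        exact_mod_cast Nat.mul_pos (by omega : 0 < 3 * w) (by omega : 0 < B)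
      exact add_le_add le_rfl (le_mul_of_one_le_left (by positivity) this)
    · intro k hk
      have f1 : ∑ n ∈ range H, (if (H * a + n).Prime then
          Phi U B (ind B k) (3 * w + w) (H * a + n) else 0) = v k + p * Phi 1 B (ind B k) w a := by
        rw [hv, hp, sum_mul, ← sum_add_distrib]
        refine sum_congr rfl fun n hn => ?_
        have hn' := mem_range.mp hn
        rw [Phi_add, ← Phi_mod U B _ (3 * w) (H * a + n), ← hH, Nat.mul_add_mod,
          Nat.mod_eq_of_lt hn', Nat.mul_add_div hH0, Nat.div_eq_of_lt hn', add_zero]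
        split_ifs <;> simp
      have f2 := abs_le.mp (b3 k)
      rw [f1] at f2
      have f3 := abs_le.mp (hE _ (by omega) j1 b1 k hk)
      have f4 := abs_le.mp (hE _ c2 j2 b2 k hk)
      rw [abs_le]
      constructor <;> linarith
    · have f1 : ∑ k ∈ range B, v k = 0 := by
        simp only [hv]
        rw [sum_comm]
        refine sum_eq_zero fun n _ => ?_
        split_ifs
        · exact sum_Phi_ind U (by omega) _ _
        · simp
      have f2 : ∑ k ∈ range B, v k ^ 2 = ∑ n ∈ range H, (if (H * a + n).Prime then (1 : ℝ) else 0) *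
          (if (H * a + n).Prime then Phi U B v (3 * w) n else 0) := by
        have : ∀ k, v k ^ 2 = ∑ n ∈ range H,
            (if (H * a + n).Prime then v k * Phi U B (ind B k) (3 * w) n else 0) := by
          intro k
          rw [sq]
          conv_lhs => enter [2]; rw [hv]
          simp only [mul_sum, mul_ite, mul_zero]
        simp only [this]
        rw [sum_comm]
        refine sum_congr rfl fun n _ => ?_
        split_ifs
        · rw [one_mul]; exact sum_mul_Phi_ind U (by omega) v f1 _ _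
        · simp
      have f3 := sum_mul_sq_le_sq_mul_sq (range H)
        (fun n => if (H * a + n).Prime then (1 : ℝ) else 0)
        (fun n => if (H * a + n).Prime then Phi U B v (3 * w) n else 0)
      rw [← f2] at f3
      simp only [ite_pow, one_pow, ne_eq, OfNat.ofNat_ne_zero, not_false_eq_true, zero_pow] at f3
      have f4 := f3.trans (mul_le_mul_of_nonneg_left (s2 v f1) hp0)
      have f5 : 0 ≤ ∑ k ∈ range B, v k ^ 2 := sum_nonneg fun _ _ => sq_nonneg _
      rcases f5.eq_or_lt with h | h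
      · rw [← h]; positivity
      · refine le_of_mul_le_mul_right ?_ h
        push_cast at f4
        linarith
  rw [e1, e0, sum_range_mul H A, sum_range_mul H A0, ← sum_Ico_eq_sub _ hAA]
  refine (sum_le_sum key).trans ((sum_le_sum_of_subset_of_nonneg (t := range A)
    (fun a ha => mem_range.mpr (mem_Ico.mp ha).2) fun _ _ _ => by positivity).trans ?_)
  rw [sum_add_distrib, ← mul_sum, sum_const, card_range, nsmul_eq_mul]
  have g1 := sum_ZZ' (B := B) (by omega) w (10 ^ (s + 1))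
  rw [← hA, mul_comm, ← le_div_iff₀ hB'] at g1
  have hw0 : (0 : ℝ) < w := by linarith
  have g2 := mul_le_mul_of_nonneg_left g1 (by positivity : 0 ≤ 16 * ν / (w : ℝ) ^ 2)
  have g3 : 16 * ν / (w : ℝ) ^ 2 * (2 * w ^ 2 * A / B) = 32 * ν / B * A := by field_simp; ring
  have g4 : (2 * E + 80 * ν / B) * A = A * (2 * E + 48 * ν / B) + 32 * ν / B * A := by ring
  linarith

end

lemma cheb (l : ℕ) (hl : 9 ≤ l) : (10 : ℝ) ^ (l + 1) / (8 * (l + 1)) - 3 - √(10 ^ (l + 1)) ≤
    ∑ n ∈ range (10 ^ (l + 1)), (if n.Prime then (1 : ℝ) else 0) -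
      ∑ n ∈ range (10 ^ l), (if n.Prime then (1 : ℝ) else 0) := by
  rw [sum_boole, sum_boole, ← Nat.count_eq_card_filter_range, ← Nat.count_eq_card_filter_range]
  have h1 := Chebyshev.pi_ge (10 ^ (l + 1))
  have hx : (1 : ℝ) < 10 ^ l := one_lt_pow₀ (by norm_num) (by omega)
  have h2 := Chebyshev.pi_le_log4_mul_div hx
  have h3 : ⌊(10 : ℝ) ^ l⌋₊ = 10 ^ l := by exact_mod_cast Nat.floor_natCast (R := ℝ) (10 ^ l)
  rw [h3, Real.log_sqrt (by positivity), Real.log_pow] at h2
  have h4 : (Nat.primeCounting (10 ^ (l + 1)) : ℝ) ≤ Nat.count Nat.Prime (10 ^ (l + 1)) + 1 := by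
    have : Nat.primeCounting (10 ^ (l + 1)) ≤ Nat.count Nat.Prime (10 ^ (l + 1)) + 1 := by
      rw [Nat.primeCounting, Nat.primeCounting', Nat.count_succ]; split_ifs <;> omega
    exact_mod_cast this
  have h5 : (Nat.count Nat.Prime (10 ^ l) : ℝ) ≤ Nat.primeCounting (10 ^ l) := by
    exact_mod_cast Nat.count_monotone Nat.Prime (Nat.le_succ _)
  have h6 : √((10 : ℝ) ^ l) ≤ √(10 ^ (l + 1)) :=
    Real.sqrt_le_sqrt (pow_le_pow_right₀ (by norm_num) (by omega))
  push_cast at h1
  rw [Real.log_pow] at h1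
  have l2 : 0 < Real.log 2 := Real.log_pos (by norm_num)
  have l10 : 0 < Real.log 10 := Real.log_pos (by norm_num)
  have l4 : Real.log 4 = 2 * Real.log 2 := by
    rw [show (4 : ℝ) = 2 ^ 2 by norm_num, Real.log_pow]; norm_num
  have l16 : Real.log 10 ≤ 4 * Real.log 2 := by
    rw [show 4 * Real.log 2 = Real.log (2 ^ 4) by rw [Real.log_pow]; norm_num]
    exact Real.log_le_log (by norm_num) (by norm_num)
  have hl' : (9 : ℝ) ≤ l := by exact_mod_cast hl
  have h7 : Real.log ((10 : ℝ) ^ (l + 1) + 1) ≤ 2 * ((l + 1 : ℕ) * Real.log 10) := by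
    rw [← Real.log_pow, show 2 * Real.log ((10 : ℝ) ^ (l + 1)) = Real.log ((10 ^ (l + 1)) ^ 2) by
      rw [Real.log_pow _ 2]; norm_num]
    refine Real.log_le_log (by positivity) ?_
    have : (10 : ℝ) ^ (l + 1) = 10 * 10 ^ l := by ring
    nlinarith
  push_cast at h1 h7
  rw [sub_div] at h1
  have h8 : Real.log ((10 : ℝ) ^ (l + 1) + 1) / ((l + 1) * Real.log 10) ≤ 2 :=
    (div_le_iff₀ (by positivity)).mpr h7
  have hy : (0 : ℝ) < 10 ^ l := by positivity
  have h9 : Real.log 4 * 10 ^ l / (l * Real.log 10 / 2) + (10 : ℝ) ^ (l + 1) / (8 * (l + 1)) ≤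
      10 ^ (l + 1) * Real.log 2 / ((l + 1) * Real.log 10) := by
    have a1 : Real.log 4 * 10 ^ l / (l * Real.log 10 / 2) ≤
        5 * (10 ^ l * Real.log 2 / ((l + 1) * Real.log 10)) := by
      rw [l4, ← mul_div_assoc, div_le_div_iff₀ (by positivity) (by positivity)]
      have : 0 < 10 ^ l * Real.log 2 * Real.log 10 := by positivity
      nlinarith
    have a2 : (10 : ℝ) ^ (l + 1) / (8 * (l + 1)) ≤
        5 * (10 ^ l * Real.log 2 / ((l + 1) * Real.log 10)) := by
      rw [← mul_div_assoc, div_le_div_iff₀ (by positivity) (by positivity), pow_succ]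
      have : 0 ≤ (10 : ℝ) ^ l * (l + 1) := by positivity
      nlinarith [mul_le_mul_of_nonneg_left l16 this]
    have a3 : 10 ^ (l + 1) * Real.log 2 / ((l + 1) * Real.log 10) =
        10 * (10 ^ l * Real.log 2 / ((l + 1) * Real.log 10)) := by ring
    linarith
  linarith

end Pool.Agent.Ha237
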