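import Mathlib
import Pool.Agent.H.MP_a23773_nt.C

set_option autoImplicit false

namespace Pool.Agent.Ha237

open Finset

lemma abs_dev_le (d : ℕ → ℕ) (m k n : ℕ) : |dev d m k n| ≤ n := by
  refine (abs_sum_le_sum_abs _ _).trans ((sum_le_card_nsmul _ _ 1 fun j _ =>
    abs_ind_le _ _ (by positivity)).trans (by simp))

lemma core (d T : ℕ → ℕ) (h0 : T 0 = 0)
    (hT : ∀ y, T (y + 1) = T y + if y.Prime then (Nat.digits 10 y).length else 0)
    (hd : ∀ y j, y.Prime → j < (Nat.digits 10 y).length →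
      d (T y + j) = y / 10 ^ ((Nat.digits 10 y).length - 1 - j) % 10) (n0 : ℕ)
    (hyp : ∀ k < 10 ^ 7, ∀ n, n0 ≤ n →
      |dev d 7 k n| ≤ 2 * √(2 * (n : ℝ) * Real.log (Real.log n))) : False := by
  obtain ⟨z, hz1, hz2⟩ : ∃ z : ℕ, n0 ≤ z ∧ 100000000 ≤ z := ⟨n0 + 100000000, by omega, by omega⟩
  obtain ⟨l, hl⟩ : ∃ l, l = 196 * z + 6 := ⟨_, rfl⟩
  obtain ⟨u, hu⟩ : ∃ u, u = T (10 ^ l) % 7 := ⟨_, rfl⟩
  obtain ⟨s, hs⟩ : ∃ s, s + 1 + u = 7 := ⟨6 - u, by omega⟩
  obtain ⟨β, hβ⟩ : ∃ β : ℝ, β = (10 ^ 7) ^ z := ⟨_, rfl⟩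
  have hz' : (100000000 : ℝ) ≤ z := by exact_mod_cast hz2
  have hn0 : (n0 : ℝ) ≤ z := by exact_mod_cast hz1
  have hl' : (l : ℝ) = 196 * z + 6 := by exact_mod_cast hl
  have hβ1 : 10 ^ 12 * (z : ℝ) ^ 2 ≤ β := by
    have a1 : (z : ℝ) ≤ 2 ^ z := by exact_mod_cast (Nat.lt_two_pow_self (n := z)).le
    have a2 : (2500000 : ℝ) ^ 2 ≤ 2500000 ^ z := pow_le_pow_right₀ (by norm_num) (by omega)
    have a3 : β = 2500000 ^ z * (2 ^ z) ^ 2 := by
      rw [hβ, ← pow_mul 2 z 2, mul_comm z 2, pow_mul, ← mul_pow]; norm_num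
    rw [a3]
    exact mul_le_mul (le_trans (by norm_num) a2) (pow_le_pow_left₀ (by positivity) a1 2)
      (by positivity) (by positivity)
  have hβ2 : 10 ^ 7 ≤ β := by nlinarith
  have hβ0 : 1 ≤ β := by linarith
  have hy : (10 : ℝ) ^ (l + 1) = 10 ^ 7 * β ^ 28 := by
    rw [hβ, ← pow_mul, ← pow_mul, ← pow_add]; congr 1; omega
  have hsq : (10 : ℝ) ^ (l + 1) ≤ (β ^ 15) ^ 2 := by
    rw [hy, show (β ^ 15) ^ 2 = β ^ 2 * β ^ 28 by ring]
    exact mul_le_mul_of_nonneg_right (by nlinarith) (by positivity)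
  have l10 : Real.log 10 ≤ 3 := by
    rw [Real.log_le_iff_le_exp (by norm_num), show (3 : ℝ) = (3 : ℕ) * 1 by norm_num, Real.exp_nat_mul]
    have := Real.exp_one_gt_d9
    exact le_trans (by norm_num) (pow_le_pow_left₀ (by norm_num) this.le 3)
  have l10' : 2 ≤ Real.log 10 := by
    rw [Real.le_log_iff_exp_le (by norm_num), show (2 : ℝ) = (2 : ℕ) * 1 by norm_num, Real.exp_nat_mul]
    have := Real.exp_one_lt_d9
    exact le_trans (pow_le_pow_left₀ (by positivity) this.le 2) (by norm_num)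
  have hmain := primes_le d T hT hd 7 s u (7 * z) l ((10 ^ 7) ^ z) (by norm_num) hs (by omega)
    (T (10 ^ l) / 7 + 1) (by omega) (Nat.one_le_iff_ne_zero.mpr (by positivity))
    (by rw [← pow_mul]; exact Nat.pow_lt_pow_right (by norm_num) (by omega)) (by omega)
    (z + 10 * (l + 1) * β ^ 15) (by positivity) (by
      intro y hy1 j hj k hk
      by_cases hj0 : n0 ≤ j
      · refine (hyp k hk j hj0).trans ?_
        have a1 := T_le T hT h0 (l + 1) y hy1
        have a2 : (l + 1) * y ≤ (l + 1) * 10 ^ (l + 1) := Nat.mul_le_mul_left _ hy1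
        have a3 : l + 1 ≤ (l + 1) * 10 ^ (l + 1) := Nat.le_mul_of_pos_right _ (by positivity)
        have a4 : j ≤ (l + 1) * 10 ^ (l + 1) := by omega
        have a5 : (j : ℝ) ≤ (l + 1) * 10 ^ (l + 1) := by exact_mod_cast a4
        have a6 : j ≤ 10 ^ (2 * (l + 1)) := by
          rw [two_mul, pow_add]
          exact a4.trans (Nat.mul_le_mul_right _ (Nat.lt_pow_self (by norm_num)).le)
        have a7 : Real.log (Real.log j) ≤ 6 * (l + 1) := by
          refine (Real.log_le_self (Real.log_natCast_nonneg j)).trans ?_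
          rcases Nat.eq_zero_or_pos j with rfl | hj1
          · simp; positivity
          · have b1 : Real.log j ≤ Real.log (10 ^ (2 * (l + 1))) :=
              Real.log_le_log (by exact_mod_cast hj1) (by exact_mod_cast a6)
            rw [Real.log_pow] at b1
            push_cast at b1
            nlinarith
        have a8 : √(2 * (j : ℝ) * Real.log (Real.log j)) ≤ 5 * (l + 1) * β ^ 15 := by
          refine Real.sqrt_le_iff.mpr ⟨by positivity, ?_⟩
          calc 2 * (j : ℝ) * Real.log (Real.log j) ≤ 2 * (j : ℝ) * (6 * (l + 1)) :=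
              mul_le_mul_of_nonneg_left a7 (by positivity)
            _ ≤ 2 * ((l + 1) * (β ^ 15) ^ 2) * (6 * (l + 1)) := by
              gcongr
              exact a5.trans (mul_le_mul_of_nonneg_left hsq (by positivity))
            _ ≤ _ := by nlinarith [sq_nonneg ((l + 1) * β ^ 15)]
        linarith
      · have a1 := abs_dev_le d 7 k j
        have a2 : (j : ℝ) ≤ z := by exact_mod_cast (by omega : j ≤ z)
        have : 0 ≤ 10 * ((l : ℝ) + 1) * β ^ 15 := by positivity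
        linarith) _ rfl
  have hch := (cheb l (by omega)).trans hmain
  have hG := GG_ge 10 ((10 ^ 7) ^ z) (by norm_num)
  have hG1 : 7 * (z : ℝ) ≤ 20 * GG 10 ((10 ^ 7) ^ z) := by
    have a1 : (10 ^ 7) ^ z / 10 = 10 ^ (7 * z - 1) := by
      rw [← pow_mul, show 7 * z = (7 * z - 1) + 1 by omega, pow_succ, Nat.mul_div_cancel _ (by norm_num)]
      rfl
    rw [a1] at hG
    have a2 : Real.log ((10 : ℝ) ^ (7 * z - 1)) ≤ Real.log ((10 ^ (7 * z - 1) + 1 : ℕ) : ℝ) :=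
      Real.log_le_log (by positivity) (by push_cast; linarith)
    rw [Real.log_pow, Nat.cast_sub (by omega)] at a2
    push_cast at a2 hG ⊢
    nlinarith
  generalize GG 10 ((10 ^ 7) ^ z) = G at hch hG1
  have hUS : (10 : ℝ) ^ u * 10 ^ (s + 1) = 10 ^ 7 := by rw [← pow_add]; congr 1; omega
  have hS : (10 : ℝ) ^ (s + 1) ≤ 10 ^ 7 := pow_le_pow_right₀ (by norm_num) (by omega)
  have hS0 : (0 : ℝ) < 10 ^ (s + 1) := by positivity
  have p1 : ∀ k : ℕ, ((10 : ℝ) ^ 7) ^ (k * z) = β ^ k := fun k => by rw [hβ, mul_comm, pow_mul]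
  simp only [Nat.cast_mul, Nat.cast_pow, Nat.cast_ofNat, ← mul_assoc _ 7 z] at hch
  rw [p1, p1, p1, ← hβ, hy] at hch
  generalize (10 : ℝ) ^ u = U at hch hUS
  generalize (10 : ℝ) ^ (s + 1) = S at hch hUS hS hS0
  have hG0 : 0 < G := by linarith
  have hz0 : (0 : ℝ) < z := by linarith
  obtain ⟨W, hW⟩ : ∃ W, W = β / z := ⟨_, rfl⟩
  have hW1 : 10 ^ 12 * (z : ℝ) ≤ W := by rw [hW, le_div_iff₀ hz0]; linarith
  have hY : 0 < β ^ 27 := by positivity
  have t1 : 6000 * (W * β ^ 27) ≤ 10 ^ 7 * β ^ 28 / (8 * (l + 1)) := by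
    rw [hW, le_div_iff₀ (by positivity), hl']
    have : 6000 * (β / z * β ^ 27) * (8 * (196 * z + 6 + 1)) =
        β ^ 28 * (48000 * (196 + 7 / z)) := by field_simp; ring
    rw [this, mul_comm]
    have : 7 / (z : ℝ) ≤ 7 := div_le_self (by norm_num) (by linarith)
    exact mul_le_mul_of_nonneg_right (by linarith) (by positivity)
  have t2 : 80 * (β ^ 28 / G) ≤ 240 * (W * β ^ 27) := by
    have : β ^ 28 / G ≤ β ^ 28 / (z / 3) := div_le_div_of_nonneg_left (by positivity) (by positivity)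
      (by linarith)
    have e : β ^ 28 / (z / 3) = 3 * (W * β ^ 27) := by rw [hW]; field_simp
    linarith
  have hp : ∀ k ≤ 27, β ^ k ≤ β ^ 27 := fun k hk => pow_le_pow_right₀ hβ0 hk
  have t4 : 2 * (z + 10 * (l + 1) * β ^ 15) * (β ^ 7 * S) ≤ 4062 * 10 ^ 7 * (z * β ^ 27) := by
    have a1 : z + 10 * (l + 1) * β ^ 15 ≤ 2031 * z * β ^ 15 := by
      have : (1 : ℝ) ≤ β ^ 15 := one_le_pow₀ hβ0
      rw [hl']; nlinarith
    calc _ ≤ 2 * (2031 * z * β ^ 15) * (β ^ 7 * 10 ^ 7) := by gcongr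
      _ = 4062 * 10 ^ 7 * (z * β ^ 22) := by ring
      _ ≤ _ := mul_le_mul_of_nonneg_left (mul_le_mul_of_nonneg_left (hp 22 (by norm_num)) hz0.le)
          (by norm_num)
  have t5 : 3 + √(10 ^ 7 * β ^ 28) ≤ 4 * (z * β ^ 27) := by
    have a1 : √(10 ^ 7 * β ^ 28) ≤ β ^ 15 := Real.sqrt_le_iff.mpr ⟨by positivity, hy ▸ hsq⟩
    have a2 := hp 15 (by norm_num)
    have a3 := hp 0 (by norm_num)
    have a4 : β ^ 27 ≤ z * β ^ 27 := le_mul_of_one_le_left hY.le (by linarith)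
    rw [pow_zero] at a3
    linarith
  have t3 : (2 * (z + 10 * (l + 1) * β ^ 15) + 80 * (U * β ^ (3 * 7) / G +
      3 * 7 * z * 10 ^ 7 * (U * β ^ (2 * 7) * β ^ 6)) / 10 ^ 7) * (β ^ 7 * S) =
      2 * (z + 10 * (l + 1) * β ^ 15) * (β ^ 7 * S) + 80 * (β ^ 28 / G) +
        1680 * 10 ^ 7 * (z * β ^ 27) := by
    have : U = 10 ^ 7 / S := by rw [eq_div_iff hS0.ne', hUS]
    rw [this]; field_simp; ring
  have t6 := mul_le_mul_of_nonneg_right hW1 hY.le
  have t7 : 0 < z * β ^ 27 := by positivity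
  rw [t3] at hch
  rw [mul_assoc] at t6
  generalize 2 * (z + 10 * (l + 1) * β ^ 15) * (β ^ 7 * S) = x1 at hch t4
  generalize 10 ^ 7 * β ^ 28 / (8 * (l + 1)) = x2 at hch t1
  generalize √(10 ^ 7 * β ^ 28) = x3 at hch t5
  generalize β ^ 28 / G = x4 at hch t2
  generalize W * β ^ 27 = x5 at t1 t2 t6
  generalize z * β ^ 27 = x6 at hch t4 t5 t6 t7
  norm_num at hch t4 t6
  linarith

end Pool.Agent.Ha237
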